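import Pool.Agent.Lib.MP_1d1573_an.Maps

set_option autoImplicit false

namespace Pool.Agent.Lib.MP1d1573

open scoped ENNReal

variable {M : Type*} [MetricSpace M] {b : M}

/-- the type synonym -/
noncomputable def lipEquiv : lipSubmodule M b ≃ₗ[ℝ] Lip0 M b where
  toFun f := f
  invFun f := f
  left_inv _ := rfl
  right_inv _ := rfl
  map_add' _ _ := rfl
  map_smul' _ _ := rfl

/-- the elementary `ℓ_∞` sum is the Mathlib one -/
noncomputable def sumEquiv : lp (fun _ : ℕ => Lip0 M b) ∞ ≃ₗ[ℝ] linfSum M b where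
  toFun F := ⟨fun n => (F n).1, fun n => (F n).2, ‖F‖, fun n => norm_apply_le F n⟩
  invFun F := ⟨(fun n => lipEquiv ⟨F.1 n, F.2.1 n⟩ : ℕ → Lip0 M b), memℓp_infty (by
    obtain ⟨C, hC⟩ := F.2.2
    refine ⟨C, ?_⟩
    rintro r ⟨n, rfl⟩
    exact hC n)⟩
  left_inv _ := rfl
  right_inv _ := rfl
  map_add' _ _ := rfl
  map_smul' _ _ := rfl

lemma norm_sumEquiv (F : lp (fun _ : ℕ => Lip0 M b) ∞) :
    (⨆ n, lipNorm (((sumEquiv F : linfSum M b) : ℕ → M → ℝ) n)) = ‖F‖ := by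
  rw [lp.norm_eq_ciSup]
  rfl

theorem main_elementary (X : Type*) [NormedAddCommGroup X] [NormedSpace ℝ X] (N : Set X)
    (hN : IsNet N) (b : N) :
    LinIso (lip0Norm : lipSubmodule N b → ℝ) (linfNorm : linfSum N b → ℝ) := by
  obtain ⟨e⟩ := main X N hN b
  refine ⟨(lipEquiv.trans e.toLinearEquiv).trans sumEquiv,
    ‖(e : Lip0 N b →L[ℝ] lp (fun _ : ℕ => Lip0 N b) ∞)‖
      + ‖(e.symm : lp (fun _ : ℕ => Lip0 N b) ∞ →L[ℝ] Lip0 N b)‖ + 1, by positivity, ?_, ?_⟩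
  · intro f
    have h1 : linfNorm (((lipEquiv.trans e.toLinearEquiv).trans sumEquiv) f)
        = ‖e (lipEquiv f)‖ := norm_sumEquiv (e (lipEquiv f))
    rw [h1]
    refine ((e : Lip0 N b →L[ℝ] lp (fun _ : ℕ => Lip0 N b) ∞).le_opNorm (lipEquiv f)).trans ?_
    have h2 : ‖lipEquiv f‖ = lip0Norm f := rfl
    rw [h2]
    have h3 : 0 ≤ lip0Norm f := Lip0.norm_nonneg (lipEquiv f)
    refine mul_le_mul_of_nonneg_right ?_ h3
    have := norm_nonneg (e.symm : lp (fun _ : ℕ => Lip0 N b) ∞ →L[ℝ] Lip0 N b)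
    linarith
  · intro f
    have h1 : linfNorm (((lipEquiv.trans e.toLinearEquiv).trans sumEquiv) f)
        = ‖e (lipEquiv f)‖ := norm_sumEquiv (e (lipEquiv f))
    rw [h1]
    have h2 : lip0Norm f = ‖e.symm (e (lipEquiv f))‖ := by
      rw [e.symm_apply_apply]; rfl
    rw [h2]
    refine ((e.symm : lp (fun _ : ℕ => Lip0 N b) ∞ →L[ℝ] Lip0 N b).le_opNorm
      (e (lipEquiv f))).trans ?_
    refine mul_le_mul_of_nonneg_right ?_ (norm_nonneg _)
    have := norm_nonneg (e : Lip0 N b →L[ℝ] lp (fun _ : ℕ => Lip0 N b) ∞)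
    linarith

end Pool.Agent.Lib.MP1d1573
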