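import Mathlib

set_option autoImplicit false

namespace Pool.Agent.Lib.MP1d1573

open scoped ENNReal

variable {E V : Type*} [NormedAddCommGroup E] [NormedSpace ℝ E] [NormedAddCommGroup V]
  [NormedSpace ℝ V]

/-- A uniformly bounded sequence of linear maps gives a bounded map into the `ℓ_∞` sum. -/
noncomputable def mkLp (T : ℕ → V →ₗ[ℝ] E) (C : ℝ) (hC : 0 ≤ C) (h : ∀ n v, ‖T n v‖ ≤ C * ‖v‖) :
    V →L[ℝ] lp (fun _ : ℕ => E) ∞ :=
  LinearMap.mkContinuous
    { toFun := fun v => ⟨fun n => T n v, memℓp_infty ⟨C * ‖v‖, by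
        rintro r ⟨n, rfl⟩
        exact h n v⟩⟩
      map_add' := fun v w => by
        ext n
        exact map_add (T n) v w
      map_smul' := fun c v => by
        ext n
        exact map_smul (T n) c v }
    C (fun v => lp.norm_le_of_forall_le (mul_nonneg hC (norm_nonneg v)) (fun n => h n v))

lemma mkLp_apply (T : ℕ → V →ₗ[ℝ] E) (C : ℝ) (hC : 0 ≤ C) (h : ∀ n v, ‖T n v‖ ≤ C * ‖v‖) (v : V)
    (n : ℕ) : mkLp T C hC h v n = T n v := rfl

/-- evaluation at an index -/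
noncomputable def ev (n : ℕ) : lp (fun _ : ℕ => E) ∞ →L[ℝ] E :=
  LinearMap.mkContinuous
    { toFun := fun l => l n
      map_add' := fun v w => by simp
      map_smul' := fun c v => by simp }
    1 (fun l => by
      rw [one_mul]
      exact lp.norm_apply_le_norm (by simp) l n)

@[simp] lemma ev_apply (n : ℕ) (l : lp (fun _ : ℕ => E) ∞) : ev n l = l n := rfl

omit [NormedSpace ℝ E] in
lemma norm_apply_le (l : lp (fun _ : ℕ => E) ∞) (n : ℕ) : ‖l n‖ ≤ ‖l‖ :=
  lp.norm_apply_le_norm (by simp) l n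

/-- reindexing -/
noncomputable def reidx (σ : ℕ → ℕ) : lp (fun _ : ℕ => E) ∞ →L[ℝ] lp (fun _ : ℕ => E) ∞ :=
  mkLp (fun n => (ev (σ n)).toLinearMap) 1 zero_le_one (fun n v => by
    rw [one_mul]
    exact norm_apply_le v (σ n))

@[simp] lemma reidx_apply (σ : ℕ → ℕ) (l : lp (fun _ : ℕ => E) ∞) (n : ℕ) :
    reidx σ l n = l (σ n) := rfl

/-- put a vector in front of a sequence -/
noncomputable def consL (P : V →L[ℝ] E) (Q : V →L[ℝ] lp (fun _ : ℕ => E) ∞) :
    V →L[ℝ] lp (fun _ : ℕ => E) ∞ :=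
  mkLp (fun n => Nat.casesOn n P.toLinearMap (fun m => (ev m).toLinearMap ∘ₗ Q.toLinearMap))
    (‖P‖ + ‖Q‖) (by positivity) (fun n v => by
      cases n with
      | zero =>
        refine (P.le_opNorm v).trans ?_
        have : 0 ≤ ‖Q‖ * ‖v‖ := by positivity
        rw [add_mul]
        exact le_add_of_nonneg_right this
      | succ m =>
        refine (norm_apply_le (Q v) m).trans ((Q.le_opNorm v).trans ?_)
        have : 0 ≤ ‖P‖ * ‖v‖ := by positivity
        rw [add_mul]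
        exact le_add_of_nonneg_left this)

@[simp] lemma consL_zero (P : V →L[ℝ] E) (Q : V →L[ℝ] lp (fun _ : ℕ => E) ∞) (v : V) :
    consL P Q v 0 = P v := rfl
@[simp] lemma consL_succ (P : V →L[ℝ] E) (Q : V →L[ℝ] lp (fun _ : ℕ => E) ∞) (v : V) (n : ℕ) :
    consL P Q v (n + 1) = Q v n := rfl

/-- interleave two sequences -/
noncomputable def interL (P Q : V →L[ℝ] lp (fun _ : ℕ => E) ∞) :
    V →L[ℝ] lp (fun _ : ℕ => E) ∞ :=
  mkLp (fun n => if n % 2 = 0 then (ev (n / 2)).toLinearMap ∘ₗ P.toLinearMap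
      else (ev (n / 2)).toLinearMap ∘ₗ Q.toLinearMap)
    (‖P‖ + ‖Q‖) (by positivity) (fun n v => by
      split_ifs with h
      · refine (norm_apply_le (P v) (n / 2)).trans ((P.le_opNorm v).trans ?_)
        have : 0 ≤ ‖Q‖ * ‖v‖ := by positivity
        rw [add_mul]
        exact le_add_of_nonneg_right this
      · refine (norm_apply_le (Q v) (n / 2)).trans ((Q.le_opNorm v).trans ?_)
        have : 0 ≤ ‖P‖ * ‖v‖ := by positivity
        rw [add_mul]
        exact le_add_of_nonneg_left this)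

lemma interL_even (P Q : V →L[ℝ] lp (fun _ : ℕ => E) ∞) (v : V) (n : ℕ) :
    interL P Q v (2 * n) = P v n := by
  unfold interL
  rw [mkLp_apply]
  have h1 : 2 * n % 2 = 0 := by omega
  have h2 : 2 * n / 2 = n := by omega
  rw [if_pos h1, h2]
  rfl

lemma interL_odd (P Q : V →L[ℝ] lp (fun _ : ℕ => E) ∞) (v : V) (n : ℕ) :
    interL P Q v (2 * n + 1) = Q v n := by
  unfold interL
  rw [mkLp_apply]
  have h1 : ¬ (2 * n + 1) % 2 = 0 := by omega
  have h2 : (2 * n + 1) / 2 = n := by omega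
  rw [if_neg h1, h2]
  rfl

/-- Pelczynski decomposition: if `ℓ_∞(E)` is isomorphic to a complemented subspace of `E`, then `E`
is isomorphic to `ℓ_∞(E)`. -/
theorem pelczynski (Φ : E →L[ℝ] lp (fun _ : ℕ => E) ∞) (Ψ : lp (fun _ : ℕ => E) ∞ →L[ℝ] E)
    (h : ∀ l, Φ (Ψ l) = l) : Nonempty (E ≃L[ℝ] lp (fun _ : ℕ => E) ∞) := by
  set Θ : E →L[ℝ] lp (fun _ : ℕ => E) ∞ :=
    consL (ContinuousLinearMap.id ℝ E - Ψ.comp Φ + Ψ.comp ((reidx (fun n => 2 * n)).comp Φ))
      ((reidx (fun n => 2 * n + 1)).comp Φ) with hΘ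
  set J : lp (fun _ : ℕ => E) ∞ →L[ℝ] lp (fun _ : ℕ => E) ∞ :=
    interL (Φ.comp (ev 0)) (reidx (fun n => n + 1)) with hJ
  set Λ : lp (fun _ : ℕ => E) ∞ →L[ℝ] E := ev 0 - Ψ.comp (Φ.comp (ev 0)) + Ψ.comp J with hΛ
  have hΘ0 : ∀ e, Θ e 0 = e - Ψ (Φ e) + Ψ (reidx (fun n => 2 * n) (Φ e)) := fun e => rfl
  have hΘ1 : ∀ e n, Θ e (n + 1) = Φ e (2 * n + 1) := fun e n => rfl
  have hΛe : ∀ l : lp (fun _ : ℕ => E) ∞, Λ l = l 0 - Ψ (Φ (l 0)) + Ψ (J l) := fun l => rfl
  have hJ0 : ∀ (l : lp (fun _ : ℕ => E) ∞) n, J l (2 * n) = Φ (l 0) n := fun l n =>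
    interL_even _ _ l n
  have hJ1 : ∀ (l : lp (fun _ : ℕ => E) ∞) n, J l (2 * n + 1) = l (n + 1) := fun l n =>
    interL_odd _ _ l n
  refine ⟨ContinuousLinearEquiv.equivOfInverse Θ Λ ?_ ?_⟩
  · intro e
    have h1 : Φ (Θ e 0) = reidx (fun n => 2 * n) (Φ e) := by
      rw [hΘ0, map_add, map_sub, h, h]; simp
    have h2 : J (Θ e) = Φ e := by
      ext n
      rcases Nat.even_or_odd' n with ⟨m, rfl | rfl⟩
      · rw [hJ0, h1, reidx_apply]
      · rw [hJ1, hΘ1]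
    rw [hΛe, h1, h2, hΘ0]
    abel
  · intro l
    have h1 : Φ (Λ l) = J l := by
      rw [hΛe, map_add, map_sub, h, h]; simp
    ext n
    cases n with
    | zero =>
      rw [hΘ0, h1, hΛe]
      have h2 : reidx (fun n => 2 * n) (J l) = Φ (l 0) := by
        ext n
        rw [reidx_apply, hJ0]
      rw [h2]
      abel
    | succ n =>
      rw [hΘ1, h1, hJ1]

end Pool.Agent.Lib.MP1d1573
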