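import Mathlib

set_option autoImplicit false

namespace Pool.Agent.Lib.MP1d1573

open Filter Topology

/-- the limit of a real sequence along a fixed nonprincipal ultrafilter -/
noncomputable def ulim (a : ℕ → ℝ) : ℝ := limUnder (hyperfilter ℕ : Filter ℕ) a

lemma tendsto_ulim (a : ℕ → ℝ) (C : ℝ) (h : ∀ n, |a n| ≤ C) :
    Tendsto a (hyperfilter ℕ : Filter ℕ) (𝓝 (ulim a)) := by
  have hcomp : IsCompact (Set.Icc (-C) C) := isCompact_Icc
  have hmem : ((hyperfilter ℕ).map a : Filter ℝ) ≤ 𝓟 (Set.Icc (-C) C) := by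
    rw [le_principal_iff]
    have h2 : ∀ n, a n ∈ Set.Icc (-C) C := fun n => abs_le.1 (h n)
    exact Filter.mem_map.2 (Filter.Eventually.of_forall h2)
  obtain ⟨x, -, hx⟩ := hcomp.ultrafilter_le_nhds _ hmem
  have hT : Tendsto a (hyperfilter ℕ : Filter ℕ) (𝓝 x) := hx
  have : ulim a = x := hT.limUnder_eq
  rw [this]
  exact hT

lemma ulim_eq (a : ℕ → ℝ) (x : ℝ) (h : Tendsto a (hyperfilter ℕ : Filter ℕ) (𝓝 x)) : ulim a = x :=
  h.limUnder_eq

lemma ulim_add (a a' : ℕ → ℝ) (C C' : ℝ) (h : ∀ n, |a n| ≤ C) (h' : ∀ n, |a' n| ≤ C') :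
    ulim (fun n => a n + a' n) = ulim a + ulim a' :=
  ulim_eq _ _ ((tendsto_ulim a C h).add (tendsto_ulim a' C' h'))

lemma ulim_smul (c : ℝ) (a : ℕ → ℝ) (C : ℝ) (h : ∀ n, |a n| ≤ C) :
    ulim (fun n => c * a n) = c * ulim a :=
  ulim_eq _ _ ((tendsto_ulim a C h).const_mul c)

lemma ulim_sub (a a' : ℕ → ℝ) (C C' : ℝ) (h : ∀ n, |a n| ≤ C) (h' : ∀ n, |a' n| ≤ C') :
    ulim (fun n => a n - a' n) = ulim a - ulim a' :=
  ulim_eq _ _ ((tendsto_ulim a C h).sub (tendsto_ulim a' C' h'))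

lemma abs_ulim_le (a : ℕ → ℝ) (C : ℝ) (h : ∀ n, |a n| ≤ C) : |ulim a| ≤ C :=
  le_of_tendsto (tendsto_ulim a C h).abs (Filter.Eventually.of_forall h)

lemma ulim_eventually_const (a : ℕ → ℝ) (x : ℝ) (h : ∀ᶠ n in atTop, a n = x) : ulim a = x := by
  apply ulim_eq
  have h1 : Tendsto a atTop (𝓝 x) := by
    refine Tendsto.congr' ?_ tendsto_const_nhds
    exact h.mono fun n hn => hn.symm
  exact h1.mono_left Nat.hyperfilter_le_atTop

end Pool.Agent.Lib.MP1d1573
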