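import Pool.Agent.Lib.MP_1d1573_an.Defs
import Pool.Agent.Lib.MP_1d1573_an.Pel
import Pool.Agent.Lib.MP_1d1573_an.ULim

set_option autoImplicit false

namespace Pool.Agent.Lib.MP1d1573

open scoped ENNReal
open Filter Topology

section proj

variable {X : Type*} [NormedAddCommGroup X] [NormedSpace ℝ X] {N : Set X} {ε δ : ℝ}

/-- a nearly nearest point map onto the net -/
noncomputable def proj (ε : ℝ) (hδ : ∀ x : X, ∃ y ∈ N, dist x y < δ) (z : X) : N := by
  classical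
  exact if h : ∃ x : N, dist z x < ε / 2 then h.choose
    else ⟨(hδ z).choose, (hδ z).choose_spec.1⟩

omit [NormedSpace ℝ X] in
lemma proj_dist (hε : 0 < ε) (hδ0 : 0 < δ) (hδ : ∀ x : X, ∃ y ∈ N, dist x y < δ) (z : X) :
    dist z (proj ε hδ z : X) ≤ ε + δ := by
  classical
  unfold proj
  split_ifs with h
  · have := h.choose_spec
    linarith
  · have := (hδ z).choose_spec.2
    simp only
    linarith

omit [NormedSpace ℝ X] in
lemma proj_eq (hsep : ∀ x ∈ N, ∀ y ∈ N, x ≠ y → ε ≤ dist x y)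
    (hδ : ∀ x : X, ∃ y ∈ N, dist x y < δ) (z : X) (x : N) (hx : dist z x < ε / 2) :
    proj ε hδ z = x := by
  classical
  unfold proj
  have h : ∃ x : N, dist z x < ε / 2 := ⟨x, hx⟩
  rw [dif_pos h]
  have h1 := h.choose_spec
  by_contra hne
  have h2 := hsep _ h.choose.2 _ x.2 (fun heq => hne (Subtype.ext heq))
  have h3 := dist_triangle_left (h.choose : X) x z
  linarith

end proj

/-- the data used in the construction -/
structure Setup (X : Type*) [NormedAddCommGroup X] [NormedSpace ℝ X] (N : Set X) where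
  (b : N)
  (p : X → N)
  (ε η D : ℝ)
  (u : X)
  (hε : 0 < ε)
  (hη : 0 < η)
  (hD : 1 ≤ D)
  (hDη : η < D * (ε / 2))
  (hu : ‖u‖ = 1)
  (sep : ∀ x y : N, x ≠ y → ε ≤ dist x y)
  (pdist : ∀ z : X, dist z (p z : X) ≤ η)
  (peq : ∀ (z : X) (x : N), dist z x < ε / 2 → p z = x)

namespace Setup

variable {X : Type*} [NormedAddCommGroup X] [NormedSpace ℝ X] {N : Set X} (s : Setup X N)

/-- radii -/
noncomputable def r (_s : Setup X N) (m : ℕ) : ℝ := 4 ^ m
/-- centers -/
noncomputable def c (m : ℕ) : X := (s.b : X) + (4 : ℝ) ^ m • s.u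

lemma r_pos (m : ℕ) : 0 < s.r m := by unfold r; positivity
lemma one_le_r (m : ℕ) : 1 ≤ s.r m := one_le_pow₀ (by norm_num)

lemma dist_b_c (m : ℕ) : dist (s.b : X) (s.c m) = s.r m := by
  unfold c r
  rw [dist_eq_norm, sub_add_cancel_left, norm_neg, norm_smul, s.hu, mul_one, Real.norm_eq_abs,
    abs_of_pos (by positivity)]

lemma ball_unique {y : X} {m m' : ℕ} (h : dist y (s.c m) < s.r m / 2)
    (h' : dist y (s.c m') < s.r m' / 2) : m = m' := by
  have key : ∀ m m' : ℕ, m < m' → dist y (s.c m) < s.r m / 2 → dist y (s.c m') < s.r m' / 2 →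
      False := by
    intro m m' hlt h h'
    have h1 : dist (s.b : X) y ≤ s.r m + s.r m / 2 := by
      have := dist_triangle_right (s.b : X) y (s.c m)
      rw [s.dist_b_c] at this
      linarith
    have h2 : s.r m' ≤ dist (s.b : X) y + s.r m' / 2 := by
      have := dist_triangle (s.b : X) y (s.c m')
      rw [s.dist_b_c] at this
      linarith
    have h3 : 4 * s.r m ≤ s.r m' := by
      unfold r
      rw [← pow_succ']
      exact pow_le_pow_right₀ (by norm_num) hlt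
    have := s.r_pos m
    linarith
  rcases lt_trichotomy m m' with hlt | heq | hlt
  · exact (key m m' hlt h h').elim
  · exact heq
  · exact (key m' m hlt h' h).elim

/-- cutoff functions -/
noncomputable def χ (m : ℕ) (y : X) : ℝ := max 0 (min 1 (2 - 4 * dist y (s.c m) / s.r m))

lemma χ_nonneg (m : ℕ) (y : X) : 0 ≤ s.χ m y := le_max_left _ _
lemma χ_le_one (m : ℕ) (y : X) : s.χ m y ≤ 1 := max_le zero_le_one (min_le_left _ _)

lemma χ_eq_one {m : ℕ} {y : X} (h : dist y (s.c m) ≤ s.r m / 4) : s.χ m y = 1 := by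
  unfold χ
  have h1 : 4 * dist y (s.c m) / s.r m ≤ 1 := by
    rw [div_le_one (s.r_pos m)]; linarith
  rw [min_eq_left (by linarith), max_eq_right zero_le_one]

lemma χ_eq_zero {m : ℕ} {y : X} (h : s.r m / 2 ≤ dist y (s.c m)) : s.χ m y = 0 := by
  unfold χ
  have h1 : 2 ≤ 4 * dist y (s.c m) / s.r m := by
    rw [le_div_iff₀ (s.r_pos m)]; linarith
  exact max_eq_left ((min_le_right _ _).trans (by linarith))

lemma χ_lip (m : ℕ) (y y' : X) : |s.χ m y - s.χ m y'| ≤ 4 / s.r m * dist y y' := by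
  unfold χ
  have h1 : |max 0 (min 1 (2 - 4 * dist y (s.c m) / s.r m))
      - max 0 (min 1 (2 - 4 * dist y' (s.c m) / s.r m))|
      ≤ |min 1 (2 - 4 * dist y (s.c m) / s.r m) - min 1 (2 - 4 * dist y' (s.c m) / s.r m)| := by
    have := abs_max_sub_max_le_max 0 (min 1 (2 - 4 * dist y (s.c m) / s.r m)) 0
      (min 1 (2 - 4 * dist y' (s.c m) / s.r m))
    simpa using this
  have h2 : |min 1 (2 - 4 * dist y (s.c m) / s.r m) - min 1 (2 - 4 * dist y' (s.c m) / s.r m)|
      ≤ |(2 - 4 * dist y (s.c m) / s.r m) - (2 - 4 * dist y' (s.c m) / s.r m)| := by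
    have := abs_min_sub_min_le_max 1 (2 - 4 * dist y (s.c m) / s.r m) 1
      (2 - 4 * dist y' (s.c m) / s.r m)
    simpa using this
  refine (h1.trans h2).trans ?_
  have h3 : (2 - 4 * dist y (s.c m) / s.r m) - (2 - 4 * dist y' (s.c m) / s.r m)
      = 4 / s.r m * (dist y' (s.c m) - dist y (s.c m)) := by ring
  rw [h3, abs_mul, abs_of_pos (div_pos (by norm_num) (s.r_pos m))]
  refine mul_le_mul_of_nonneg_left ?_ (div_pos (by norm_num) (s.r_pos m)).le
  rw [dist_comm y y']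
  exact abs_dist_sub_le _ _ _

/-- the rescaled nearest point map from the ball around `c m` -/
noncomputable def ρ (m : ℕ) (y : X) : N := s.p ((s.b : X) + s.D⁻¹ • (y - s.c m))
/-- the rescaled nearest point map towards the ball around `c m` -/
noncomputable def φ (m : ℕ) (x : X) : N := s.p (s.c m + s.D • (x - (s.b : X)))

lemma D_pos : 0 < s.D := lt_of_lt_of_le one_pos s.hD

lemma proj_lip (z z' : X) : dist (s.p z) (s.p z') ≤ dist z z' + 2 * s.η := by
  have h1 := s.pdist z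
  have h2 := s.pdist z'
  have h3 : dist (s.p z : X) (s.p z' : X) ≤ dist (s.p z : X) z + dist z z' + dist z' (s.p z') :=
    dist_triangle4 _ _ _ _
  rw [dist_comm (s.p z : X) z] at h3
  have h4 : dist (s.p z) (s.p z') = dist (s.p z : X) (s.p z' : X) := rfl
  linarith

/-- a constant -/
noncomputable def C1 : ℝ := 1 + 2 * s.η / s.ε

lemma C1_pos : 0 < s.C1 := by
  unfold C1
  have := s.hη
  have := s.hε
  positivity

lemma add_le_C1 (a : ℝ) (y y' : N) (hyy : y ≠ y') (h : a ≤ dist y y' + 2 * s.η) :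
    a ≤ s.C1 * dist y y' := by
  have h1 := s.sep y y' hyy
  have h2 : 2 * s.η ≤ 2 * s.η / s.ε * dist y y' := by
    rw [div_mul_eq_mul_div, le_div_iff₀ s.hε]
    exact mul_le_mul_of_nonneg_left h1 (by have := s.hη; positivity)
  unfold C1
  rw [add_mul, one_mul]
  linarith

lemma ρ_lip (m : ℕ) (y y' : N) : dist (s.ρ m y) (s.ρ m y') ≤ s.C1 * dist y y' := by
  by_cases hyy : y = y'
  · subst hyy; simp
  apply s.add_le_C1 _ _ _ hyy
  unfold ρ
  refine (s.proj_lip _ _).trans ?_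
  have h1 : dist ((s.b : X) + s.D⁻¹ • ((y : X) - s.c m)) ((s.b : X) + s.D⁻¹ • ((y' : X) - s.c m))
      = s.D⁻¹ * dist y y' := by
    rw [dist_add_left, dist_smul₀, dist_sub_right, Real.norm_eq_abs,
      abs_of_pos (inv_pos.2 s.D_pos)]
    rfl
  rw [h1]
  have h2 : s.D⁻¹ ≤ 1 := inv_le_one_of_one_le₀ s.hD
  have h3 : s.D⁻¹ * dist y y' ≤ dist y y' := mul_le_of_le_one_left dist_nonneg h2
  linarith

lemma φ_lip (m : ℕ) (x x' : N) : dist (s.φ m x) (s.φ m x') ≤ s.D * s.C1 * dist x x' := by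
  by_cases hxx : x = x'
  · subst hxx; simp
  unfold φ
  refine (s.proj_lip _ _).trans ?_
  have h1 : dist (s.c m + s.D • ((x : X) - (s.b : X))) (s.c m + s.D • ((x' : X) - (s.b : X)))
      = s.D * dist x x' := by
    rw [dist_add_left, dist_smul₀, dist_sub_right, Real.norm_eq_abs, abs_of_pos s.D_pos]
    rfl
  rw [h1]
  have h2 := s.add_le_C1 _ _ _ hxx (le_refl (dist x x' + 2 * s.η))
  have h3 := mul_le_mul_of_nonneg_left h2 s.D_pos.le
  have h4 : 2 * s.η ≤ s.D * (2 * s.η) :=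
    le_mul_of_one_le_left (by have := s.hη; positivity) s.hD
  calc s.D * dist x x' + 2 * s.η ≤ s.D * (dist x x' + 2 * s.η) := by rw [mul_add]; linarith
    _ ≤ s.D * (s.C1 * dist x x') := h3
    _ = s.D * s.C1 * dist x x' := by ring

lemma ρ_dist_b (m : ℕ) (y : X) : dist (s.ρ m y) s.b ≤ dist y (s.c m) + s.η := by
  unfold ρ
  have h1 := s.pdist ((s.b : X) + s.D⁻¹ • (y - s.c m))
  have h2 : dist ((s.b : X) + s.D⁻¹ • (y - s.c m)) (s.b : X) ≤ dist y (s.c m) := by
    rw [dist_eq_norm, add_sub_cancel_left, norm_smul, Real.norm_eq_abs,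
      abs_of_pos (inv_pos.2 s.D_pos), ← dist_eq_norm]
    exact mul_le_of_le_one_left dist_nonneg (inv_le_one_of_one_le₀ s.hD)
  have h3 := dist_triangle_left (s.p ((s.b : X) + s.D⁻¹ • (y - s.c m)) : X) (s.b : X)
    ((s.b : X) + s.D⁻¹ • (y - s.c m))
  have h4 : dist (s.p ((s.b : X) + s.D⁻¹ • (y - s.c m))) s.b
    = dist (s.p ((s.b : X) + s.D⁻¹ • (y - s.c m)) : X) (s.b : X) := rfl
  linarith

lemma φ_dist (m : ℕ) (x : X) : dist (s.φ m x : X) (s.c m) ≤ s.D * dist x s.b + s.η := by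
  unfold φ
  have h1 := s.pdist (s.c m + s.D • (x - (s.b : X)))
  have h2 : dist (s.c m + s.D • (x - (s.b : X))) (s.c m) = s.D * dist x s.b := by
    rw [dist_eq_norm, add_sub_cancel_left, norm_smul, Real.norm_eq_abs, abs_of_pos s.D_pos,
      ← dist_eq_norm]
  have h3 := dist_triangle_left (s.p (s.c m + s.D • (x - (s.b : X))) : X) (s.c m)
    (s.c m + s.D • (x - (s.b : X)))
  linarith

lemma ρ_φ (m : ℕ) (x : N) : s.ρ m (s.φ m x) = x := by
  unfold ρ
  apply s.peq
  have h1 := s.pdist (s.c m + s.D • ((x : X) - (s.b : X)))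
  have h2 : (s.b : X) + s.D⁻¹ • ((s.φ m x : X) - s.c m) - x
      = s.D⁻¹ • ((s.φ m x : X) - (s.c m + s.D • ((x : X) - (s.b : X)))) := by
    rw [← sub_sub (s.φ m x : X) (s.c m), smul_sub s.D⁻¹ ((s.φ m x : X) - s.c m), smul_smul,
      inv_mul_cancel₀ s.D_pos.ne', one_smul]
    abel
  rw [dist_eq_norm, h2, norm_smul, Real.norm_eq_abs, abs_of_pos (inv_pos.2 s.D_pos),
    ← dist_eq_norm, dist_comm]
  have h3 : dist (s.c m + s.D • ((x : X) - (s.b : X))) (s.φ m x : X) ≤ s.η := h1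
  calc s.D⁻¹ * dist (s.c m + s.D • ((x : X) - (s.b : X))) (s.φ m x : X)
      ≤ s.D⁻¹ * s.η := mul_le_mul_of_nonneg_left h3 (inv_pos.2 s.D_pos).le
    _ < s.D⁻¹ * (s.D * (s.ε / 2)) := mul_lt_mul_of_pos_left s.hDη (inv_pos.2 s.D_pos)
    _ = s.ε / 2 := by rw [← mul_assoc, inv_mul_cancel₀ s.D_pos.ne', one_mul]

/-- the bump -/
noncomputable def T (m : ℕ) (f : Lip0 N s.b) (y : X) : ℝ := s.χ m y * f (s.ρ m y)

/-- a constant -/
noncomputable def C2 : ℝ := s.C1 + 2 + 4 * s.η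

lemma C2_pos : 0 < s.C2 := by
  unfold C2
  have := s.C1_pos
  have := s.hη
  positivity

lemma T_eq_zero {m : ℕ} {y : X} (h : s.r m / 2 ≤ dist y (s.c m)) (f : Lip0 N s.b) :
    s.T m f y = 0 := by
  unfold T
  rw [s.χ_eq_zero h, zero_mul]

lemma abs_f_ρ_le (m : ℕ) (f : Lip0 N s.b) (y : X) (h : dist y (s.c m) < s.r m / 2) :
    |f (s.ρ m y)| ≤ ‖f‖ * (s.r m / 2 + s.η) := by
  have h1 := f.le_norm_mul (s.ρ m y) s.b
  rw [Lip0.base, sub_zero] at h1
  refine h1.trans (mul_le_mul_of_nonneg_left ?_ f.norm_nonneg)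
  have := s.ρ_dist_b m y
  linarith

lemma T_lip_aux (m : ℕ) (f : Lip0 N s.b) (y y' : N) (h' : dist (y' : X) (s.c m) < s.r m / 2) :
    |s.T m f y - s.T m f y'| ≤ s.C2 * ‖f‖ * dist y y' := by
  have h1 : s.T m f y - s.T m f y' = s.χ m y * (f (s.ρ m y) - f (s.ρ m y'))
      + (s.χ m y - s.χ m y') * f (s.ρ m y') := by
    unfold T; ring
  rw [h1]
  have h2 : |s.χ m y * (f (s.ρ m y) - f (s.ρ m y'))| ≤ ‖f‖ * (s.C1 * dist y y') := by
    rw [abs_mul, abs_of_nonneg (s.χ_nonneg m y)]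
    calc s.χ m y * |f (s.ρ m y) - f (s.ρ m y')| ≤ 1 * |f (s.ρ m y) - f (s.ρ m y')| :=
          mul_le_mul_of_nonneg_right (s.χ_le_one m y) (abs_nonneg _)
      _ ≤ ‖f‖ * dist (s.ρ m y) (s.ρ m y') := by rw [one_mul]; exact f.le_norm_mul _ _
      _ ≤ ‖f‖ * (s.C1 * dist y y') := mul_le_mul_of_nonneg_left (s.ρ_lip m y y') f.norm_nonneg
  have h3 : |(s.χ m y - s.χ m y') * f (s.ρ m y')| ≤ ‖f‖ * ((2 + 4 * s.η) * dist y y') := by
    rw [abs_mul]
    have h4 := s.χ_lip m y y'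
    have h5 := s.abs_f_ρ_le m f y' h'
    have hd : dist (y : X) (y' : X) = dist y y' := rfl
    rw [hd] at h4
    have hr := s.r_pos m
    calc |s.χ m y - s.χ m y'| * |f (s.ρ m y')|
        ≤ (4 / s.r m * dist y y') * (‖f‖ * (s.r m / 2 + s.η)) :=
          mul_le_mul h4 h5 (abs_nonneg _) (by positivity)
      _ = ‖f‖ * ((2 + 4 * s.η / s.r m) * dist y y') := by field_simp; ring
      _ ≤ ‖f‖ * ((2 + 4 * s.η) * dist y y') := by
          refine mul_le_mul_of_nonneg_left ?_ f.norm_nonneg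
          refine mul_le_mul_of_nonneg_right ?_ dist_nonneg
          have : 4 * s.η / s.r m ≤ 4 * s.η := div_le_self (by have := s.hη; positivity) (s.one_le_r m)
          linarith
  calc |s.χ m y * (f (s.ρ m y) - f (s.ρ m y')) + (s.χ m y - s.χ m y') * f (s.ρ m y')|
      ≤ _ := abs_add_le _ _
    _ ≤ ‖f‖ * (s.C1 * dist y y') + ‖f‖ * ((2 + 4 * s.η) * dist y y') := add_le_add h2 h3
    _ = s.C2 * ‖f‖ * dist y y' := by unfold C2; ring

lemma T_lip (m : ℕ) (f : Lip0 N s.b) (y y' : N) :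
    |s.T m f y - s.T m f y'| ≤ s.C2 * ‖f‖ * dist y y' := by
  by_cases h' : dist (y' : X) (s.c m) < s.r m / 2
  · exact s.T_lip_aux m f y y' h'
  · by_cases h : dist (y : X) (s.c m) < s.r m / 2
    · rw [abs_sub_comm, dist_comm]
      exact s.T_lip_aux m f y' y h
    · rw [s.T_eq_zero (not_lt.1 h), s.T_eq_zero (not_lt.1 h'), sub_zero, abs_zero]
      have := s.C2_pos
      have := f.norm_nonneg
      positivity

/-- the index of the ball containing a point -/
noncomputable def μ (y : X) : ℕ := by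
  classical
  exact if h : ∃ m, dist y (s.c m) < s.r m / 2 then h.choose else 0

lemma μ_eq {y : X} {m : ℕ} (h : dist y (s.c m) < s.r m / 2) : s.μ y = m := by
  classical
  unfold μ
  have hex : ∃ m, dist y (s.c m) < s.r m / 2 := ⟨m, h⟩
  rw [dif_pos hex]
  exact s.ball_unique hex.choose_spec h

lemma T_ne_index {y : X} {m : ℕ} (h : s.μ y ≠ m) (f : Lip0 N s.b) : s.T m f y = 0 := by
  apply s.T_eq_zero
  by_contra hcon
  exact h (s.μ_eq (not_le.1 hcon))

end Setup

end Pool.Agent.Lib.MP1d1573
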