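import Pool.Agent.Lib.MP_1d1573_an.Stmt

set_option autoImplicit false

namespace Pool.Agent.Lib.MP1d1573

/-- The space `Lip₀(M)` of real Lipschitz functions on `M` vanishing at the base point `b`. -/
def Lip0 (M : Type*) [MetricSpace M] (b : M) : Type _ := lipSubmodule M b

variable {M : Type*} [MetricSpace M] {b : M}

noncomputable instance : AddCommGroup (Lip0 M b) :=
  inferInstanceAs (AddCommGroup (lipSubmodule M b))

noncomputable instance : Module ℝ (Lip0 M b) :=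
  inferInstanceAs (Module ℝ (lipSubmodule M b))

instance : CoeFun (Lip0 M b) (fun _ => M → ℝ) := ⟨fun f => f.1⟩

/-- The Lipschitz norm `sup_{x ≠ y} |f x - f y| / d(x, y)`. -/
noncomputable instance : Norm (Lip0 M b) := ⟨fun f => lipNorm f.1⟩

lemma Lip0.norm_def (f : Lip0 M b) :
    ‖f‖ = sSup {r : ℝ | ∃ x y : M, x ≠ y ∧ r = |f x - f y| / dist x y} := rfl

@[ext] lemma Lip0.ext {f g : Lip0 M b} (h : ∀ x, f x = g x) : f = g :=
  Subtype.ext (funext h)

@[simp] lemma Lip0.add_apply (f g : Lip0 M b) (x : M) : (f + g) x = f x + g x := rfl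
@[simp] lemma Lip0.smul_apply (c : ℝ) (f : Lip0 M b) (x : M) : (c • f) x = c * f x := rfl
@[simp] lemma Lip0.zero_apply (x : M) : (0 : Lip0 M b) x = 0 := rfl
@[simp] lemma Lip0.neg_apply (f : Lip0 M b) (x : M) : (-f) x = - f x := rfl
@[simp] lemma Lip0.sub_apply (f g : Lip0 M b) (x : M) : (f - g) x = f x - g x := rfl
@[simp] lemma Lip0.base (f : Lip0 M b) : f b = 0 := f.2.1

lemma Lip0.bddAbove (f : Lip0 M b) :
    BddAbove {r : ℝ | ∃ x y : M, x ≠ y ∧ r = |f x - f y| / dist x y} := by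
  obtain ⟨-, K, hK⟩ := f.2
  refine ⟨K, ?_⟩
  rintro r ⟨x, y, hxy, rfl⟩
  rw [div_le_iff₀ (dist_pos.2 hxy)]
  exact hK x y

lemma Lip0.norm_nonneg (f : Lip0 M b) : 0 ≤ ‖f‖ := by
  rw [Lip0.norm_def]
  apply Real.sSup_nonneg
  rintro r ⟨x, y, -, rfl⟩
  positivity

lemma Lip0.le_norm_mul (f : Lip0 M b) (x y : M) : |f x - f y| ≤ ‖f‖ * dist x y := by
  by_cases hxy : x = y
  · subst hxy; simp
  · rw [← div_le_iff₀ (dist_pos.2 hxy)]
    exact le_csSup f.bddAbove ⟨x, y, hxy, rfl⟩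

lemma Lip0.norm_le (f : Lip0 M b) {K : ℝ} (hK0 : 0 ≤ K)
    (hK : ∀ x y, |f x - f y| ≤ K * dist x y) : ‖f‖ ≤ K := by
  rw [Lip0.norm_def]
  apply Real.sSup_le _ hK0
  rintro r ⟨x, y, hxy, rfl⟩
  rw [div_le_iff₀ (dist_pos.2 hxy)]
  exact hK x y

lemma Lip0.core : NormedSpace.Core ℝ (Lip0 M b) where
  norm_nonneg := Lip0.norm_nonneg
  norm_smul c f := by
    have hle : ∀ (c : ℝ) (f : Lip0 M b), ‖c • f‖ ≤ ‖c‖ * ‖f‖ := by
      intro c f
      refine Lip0.norm_le _ (mul_nonneg (_root_.norm_nonneg c) f.norm_nonneg) fun x y => ?_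
      rw [Lip0.smul_apply, Lip0.smul_apply, ← mul_sub, abs_mul, mul_assoc, Real.norm_eq_abs]
      exact mul_le_mul_of_nonneg_left (f.le_norm_mul x y) (abs_nonneg c)
    apply le_antisymm (hle c f)
    by_cases hc : c = 0
    · subst hc
      simp [Lip0.norm_nonneg]
    · have h := hle c⁻¹ (c • f)
      rw [smul_smul, inv_mul_cancel₀ hc, one_smul, norm_inv] at h
      have hc' : 0 < ‖c‖ := norm_pos_iff.2 hc
      calc ‖c‖ * ‖f‖ ≤ ‖c‖ * (‖c‖⁻¹ * ‖c • f‖) := mul_le_mul_of_nonneg_left h hc'.le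
        _ = ‖c • f‖ := by rw [← mul_assoc, mul_inv_cancel₀ hc'.ne', one_mul]
  norm_triangle f g := by
    refine Lip0.norm_le _ (add_nonneg f.norm_nonneg g.norm_nonneg) fun x y => ?_
    rw [Lip0.add_apply, Lip0.add_apply, add_mul]
    have h : f x + g x - (f y + g y) = (f x - f y) + (g x - g y) := by ring
    rw [h]
    exact (abs_add_le _ _).trans (add_le_add (f.le_norm_mul x y) (g.le_norm_mul x y))
  norm_eq_zero_iff f := by
    constructor
    · intro h
      ext x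
      have h1 := f.le_norm_mul x b
      rw [h, zero_mul, Lip0.base, sub_zero] at h1
      rw [Lip0.zero_apply]
      exact abs_eq_zero.1 (le_antisymm h1 (abs_nonneg _))
    · rintro rfl
      apply le_antisymm _ (Lip0.norm_nonneg _)
      exact Lip0.norm_le _ le_rfl fun x y => by simp

noncomputable instance : NormedAddCommGroup (Lip0 M b) := NormedAddCommGroup.ofCore Lip0.core

noncomputable instance : NormedSpace ℝ (Lip0 M b) := NormedSpace.ofCore Lip0.core

end Pool.Agent.Lib.MP1d1573
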