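import Pool.Agent.Lib.MP_1d1573_an.Build

set_option autoImplicit false

namespace Pool.Agent.Lib.MP1d1573

open scoped ENNReal
open Filter Topology

namespace Setup

variable {X : Type*} [NormedAddCommGroup X] [NormedSpace ℝ X] {N : Set X} (s : Setup X N)

lemma psi_lip (F : lp (fun _ : ℕ => Lip0 N s.b) ∞) (y y' : N) :
    |s.T (s.μ y) (F (Nat.unpair (s.μ y)).2) y - s.T (s.μ y') (F (Nat.unpair (s.μ y')).2) y'|
      ≤ 2 * s.C2 * ‖F‖ * dist y y' := by
  have hC2 := s.C2_pos
  have hF : ∀ n, ‖F n‖ ≤ ‖F‖ := fun n => norm_apply_le F n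
  have hT : ∀ m n (z z' : N), |s.T m (F n) z - s.T m (F n) z'| ≤ s.C2 * ‖F‖ * dist z z' := by
    intro m n z z'
    refine (s.T_lip m (F n) z z').trans ?_
    have := hF n
    gcongr
  have h0 : 0 ≤ s.C2 * ‖F‖ * dist y y' := by positivity
  by_cases h : s.μ (y : X) = s.μ (y' : X)
  · rw [h]
    have := hT (s.μ y') (Nat.unpair (s.μ y')).2 y y'
    linarith
  · have h1 := hT (s.μ y) (Nat.unpair (s.μ y)).2 y y'
    have h2 := hT (s.μ y') (Nat.unpair (s.μ y')).2 y y'
    rw [s.T_ne_index (y := (y' : X)) (fun h' => h h'.symm), sub_zero] at h1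
    rw [s.T_ne_index (y := (y : X)) h, zero_sub, abs_neg] at h2
    calc |s.T (s.μ y) (F (Nat.unpair (s.μ y)).2) y - s.T (s.μ y') (F (Nat.unpair (s.μ y')).2) y'|
        ≤ |s.T (s.μ y) (F (Nat.unpair (s.μ y)).2) y| + |s.T (s.μ y') (F (Nat.unpair (s.μ y')).2) y'| :=
          abs_sub _ _
      _ ≤ 2 * s.C2 * ‖F‖ * dist y y' := by linarith

/-- The embedding of the `ℓ_∞` sum into `Lip₀(N)`. -/
noncomputable def psi : lp (fun _ : ℕ => Lip0 N s.b) ∞ →L[ℝ] Lip0 N s.b :=
  LinearMap.mkContinuous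
    { toFun := fun F => ⟨fun y => s.T (s.μ y) (F (Nat.unpair (s.μ y)).2) y, by
          apply s.T_eq_zero
          rw [s.dist_b_c]
          have := s.r_pos (s.μ s.b)
          linarith, 2 * s.C2 * ‖F‖, fun y y' => s.psi_lip F y y'⟩
      map_add' := fun F G => by
        ext y
        show s.T (s.μ y) ((F + G) (Nat.unpair (s.μ y)).2) y
          = s.T (s.μ y) (F (Nat.unpair (s.μ y)).2) y + s.T (s.μ y) (G (Nat.unpair (s.μ y)).2) y
        unfold T
        rw [lp.coeFn_add, Pi.add_apply, Lip0.add_apply]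
        ring
      map_smul' := fun c F => by
        ext y
        show s.T (s.μ y) ((c • F) (Nat.unpair (s.μ y)).2) y
          = c * s.T (s.μ y) (F (Nat.unpair (s.μ y)).2) y
        unfold T
        rw [lp.coeFn_smul, Pi.smul_apply, Lip0.smul_apply]
        ring }
    (2 * s.C2) (fun F => Lip0.norm_le _ (by have := s.C2_pos; positivity)
      (fun y y' => s.psi_lip F y y'))

lemma psi_apply (F : lp (fun _ : ℕ => Lip0 N s.b) ∞) (y : N) :
    s.psi F y = s.T (s.μ y) (F (Nat.unpair (s.μ y)).2) y := rfl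

/-- the sequence whose ultrafilter limit is taken -/
noncomputable def seq (G : Lip0 N s.b) (l : ℕ) (x : N) (k : ℕ) : ℝ :=
  G (s.φ (Nat.pair k l) x) - G (s.φ (Nat.pair k l) s.b)

lemma seq_diff (G : Lip0 N s.b) (l : ℕ) (x x' : N) (k : ℕ) :
    |s.seq G l x k - s.seq G l x' k| ≤ s.D * s.C1 * ‖G‖ * dist x x' := by
  unfold seq
  have h1 : G (s.φ (Nat.pair k l) x) - G (s.φ (Nat.pair k l) s.b)
      - (G (s.φ (Nat.pair k l) x') - G (s.φ (Nat.pair k l) s.b))
      = G (s.φ (Nat.pair k l) x) - G (s.φ (Nat.pair k l) x') := by ring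
  rw [h1]
  calc |G (s.φ (Nat.pair k l) x) - G (s.φ (Nat.pair k l) x')|
      ≤ ‖G‖ * dist (s.φ (Nat.pair k l) x) (s.φ (Nat.pair k l) x') := G.le_norm_mul _ _
    _ ≤ ‖G‖ * (s.D * s.C1 * dist x x') := mul_le_mul_of_nonneg_left (s.φ_lip _ x x') G.norm_nonneg
    _ = s.D * s.C1 * ‖G‖ * dist x x' := by ring

lemma seq_base (G : Lip0 N s.b) (l : ℕ) (k : ℕ) : s.seq G l s.b k = 0 := by
  unfold seq; ring

lemma seq_bdd (G : Lip0 N s.b) (l : ℕ) (x : N) (k : ℕ) :
    |s.seq G l x k| ≤ s.D * s.C1 * ‖G‖ * dist x s.b := by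
  have h := s.seq_diff G l x s.b k
  rwa [s.seq_base, sub_zero] at h

lemma phi_lip (G : Lip0 N s.b) (l : ℕ) (x x' : N) :
    |ulim (s.seq G l x) - ulim (s.seq G l x')| ≤ s.D * s.C1 * ‖G‖ * dist x x' := by
  rw [← ulim_sub _ _ _ _ (s.seq_bdd G l x) (s.seq_bdd G l x')]
  exact abs_ulim_le _ _ (s.seq_diff G l x x')

/-- one component of the left inverse -/
noncomputable def phiL (l : ℕ) : Lip0 N s.b →ₗ[ℝ] Lip0 N s.b where
  toFun := fun G => ⟨fun x => ulim (s.seq G l x), by
      apply ulim_eventually_const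
      exact Filter.Eventually.of_forall fun k => s.seq_base G l k,
    s.D * s.C1 * ‖G‖, fun x x' => s.phi_lip G l x x'⟩
  map_add' := fun F G => by
    ext x
    show ulim (s.seq (F + G) l x) = ulim (s.seq F l x) + ulim (s.seq G l x)
    rw [← ulim_add _ _ _ _ (s.seq_bdd F l x) (s.seq_bdd G l x)]
    congr 1
    ext k
    unfold seq
    rw [Lip0.add_apply, Lip0.add_apply]
    ring
  map_smul' := fun c G => by
    ext x
    show ulim (s.seq (c • G) l x) = c * ulim (s.seq G l x)
    rw [← ulim_smul c _ _ (s.seq_bdd G l x)]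
    congr 1
    ext k
    unfold seq
    rw [Lip0.smul_apply, Lip0.smul_apply]
    ring

/-- The left inverse. -/
noncomputable def phi : Lip0 N s.b →L[ℝ] lp (fun _ : ℕ => Lip0 N s.b) ∞ :=
  mkLp s.phiL (s.D * s.C1) (mul_pos s.D_pos s.C1_pos).le (fun l G =>
    Lip0.norm_le _ (mul_nonneg (mul_pos s.D_pos s.C1_pos).le G.norm_nonneg)
      (fun x x' => s.phi_lip G l x x'))

lemma phi_apply (G : Lip0 N s.b) (l : ℕ) (x : N) : s.phi G l x = ulim (s.seq G l x) := rfl

lemma psi_at_far (F : lp (fun _ : ℕ => Lip0 N s.b) ∞) (l : ℕ) (x : N) :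
    ∀ᶠ k in atTop, s.psi F (s.φ (Nat.pair k l) x) = F l x := by
  have htend : Tendsto (fun k : ℕ => (4 : ℝ) ^ k) atTop atTop :=
    tendsto_pow_atTop_atTop_of_one_lt (by norm_num)
  filter_upwards [htend.eventually_ge_atTop (4 * (s.D * dist (x : X) s.b + s.η))] with k hk
  have hkm : k ≤ Nat.pair k l := Nat.left_le_pair k l
  set m := Nat.pair k l with hm
  have h1 : s.D * dist (x : X) s.b + s.η ≤ s.r m / 4 := by
    have h2 : (4 : ℝ) ^ k ≤ s.r m := by
      unfold r
      exact pow_le_pow_right₀ (by norm_num) hkm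
    linarith
  have h3 := (s.φ_dist m (x : X)).trans h1
  have h4 : dist (s.φ m x : X) (s.c m) < s.r m / 2 := by
    have := s.r_pos m
    linarith
  rw [psi_apply, s.μ_eq h4]
  unfold T
  rw [s.χ_eq_one h3, s.ρ_φ, one_mul, hm, Nat.unpair_pair]

lemma phi_psi (F : lp (fun _ : ℕ => Lip0 N s.b) ∞) : s.phi (s.psi F) = F := by
  ext l x
  rw [phi_apply]
  apply ulim_eventually_const
  filter_upwards [s.psi_at_far F l x, s.psi_at_far F l s.b] with k hk hkb
  unfold seq
  rw [hk, hkb, Lip0.base, sub_zero]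

end Setup

/-- `Lip₀` of a net in a real normed space is isomorphic to its countable `ℓ_∞` sum. -/
theorem main (X : Type*) [NormedAddCommGroup X] [NormedSpace ℝ X] (N : Set X) (hN : IsNet N)
    (b : N) : Nonempty (Lip0 N b ≃L[ℝ] lp (fun _ : ℕ => Lip0 N b) ∞) := by
  obtain ⟨ε, δ, hε, hδ0, hsep, hδ⟩ := hN
  by_cases hX : Nontrivial X
  · obtain ⟨u, hu⟩ := exists_norm_eq X (zero_le_one (α := ℝ))
    have hη : 0 < ε + δ := by positivity
    let s : Setup X N :=
      { b := b
        p := proj ε hδ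
        ε := ε
        η := ε + δ
        D := 2 * (ε + δ) / ε + 1
        u := u
        hε := hε
        hη := hη
        hD := by
          have : 0 ≤ 2 * (ε + δ) / ε := by positivity
          linarith
        hDη := by
          have : (2 * (ε + δ) / ε + 1) * (ε / 2) = (ε + δ) + ε / 2 := by
            field_simp
          rw [this]
          linarith
        hu := hu
        sep := fun x y hxy => hsep _ x.2 _ y.2 (fun h => hxy (Subtype.ext h))
        pdist := proj_dist hε hδ0 hδ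
        peq := proj_eq hsep hδ }
    exact pelczynski s.phi s.psi s.phi_psi
  · have hsub : Subsingleton X := not_nontrivial_iff_subsingleton.1 hX
    have hL : Subsingleton (Lip0 N b) := by
      refine ⟨fun f g => ?_⟩
      ext x
      have : x = b := Subtype.ext (Subsingleton.elim _ _)
      rw [this, Lip0.base, Lip0.base]
    have hlp : Subsingleton (lp (fun _ : ℕ => Lip0 N b) ∞) := by
      refine ⟨fun f g => ?_⟩
      ext n : 2
      exact Subsingleton.elim _ _
    exact ⟨ContinuousLinearEquiv.equivOfInverse (0 : Lip0 N b →L[ℝ] lp (fun _ : ℕ => Lip0 N b) ∞) 0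
      (fun _ => Subsingleton.elim _ _) (fun _ => Subsingleton.elim _ _)⟩

end Pool.Agent.Lib.MP1d1573
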