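import Mathlib

set_option autoImplicit false

namespace Pool.Agent.Lib.MP1d1573

/-- A subset `N` of a metric space `M` is a net if it is uniformly separated and uniformly
dense. -/
def IsNet {M : Type*} [MetricSpace M] (N : Set M) : Prop :=
  ∃ ε δ : ℝ, 0 < ε ∧ 0 < δ ∧ (∀ x ∈ N, ∀ y ∈ N, x ≠ y → ε ≤ dist x y) ∧
    ∀ x : M, ∃ y ∈ N, dist x y < δ

/-- The Lipschitz norm `sup_{x ≠ y} |f x - f y| / d(x, y)` of a real function. -/
noncomputable def lipNorm {M : Type*} [MetricSpace M] (f : M → ℝ) : ℝ :=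
  sSup {r : ℝ | ∃ x y : M, x ≠ y ∧ r = |f x - f y| / dist x y}

/-- `f` is a real Lipschitz function vanishing at the base point `b`. -/
def IsLip0 {M : Type*} [MetricSpace M] (b : M) (f : M → ℝ) : Prop :=
  f b = 0 ∧ ∃ K : ℝ, ∀ x y, |f x - f y| ≤ K * dist x y

/-- `F` is a sequence of elements of `Lip₀(M)` with bounded Lipschitz norms. -/
def IsLinf {M : Type*} [MetricSpace M] (b : M) (F : ℕ → M → ℝ) : Prop :=
  (∀ n, IsLip0 b (F n)) ∧ ∃ C : ℝ, ∀ n, lipNorm (F n) ≤ C

section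

variable {M : Type*} [MetricSpace M] {b : M}

lemma isLip0_add {f g : M → ℝ} (hf : IsLip0 b f) (hg : IsLip0 b g) : IsLip0 b (f + g) := by
  obtain ⟨hf0, K, hK⟩ := hf
  obtain ⟨hg0, L, hL⟩ := hg
  refine ⟨by simp [hf0, hg0], K + L, fun x y => ?_⟩
  have h : (f + g) x - (f + g) y = (f x - f y) + (g x - g y) := by
    simp only [Pi.add_apply]; ring
  rw [h, add_mul]
  exact (abs_add_le _ _).trans (add_le_add (hK x y) (hL x y))

lemma isLip0_zero : IsLip0 b (0 : M → ℝ) := ⟨rfl, 0, fun x y => by simp⟩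

lemma isLip0_smul (c : ℝ) {f : M → ℝ} (hf : IsLip0 b f) : IsLip0 b (c • f) := by
  obtain ⟨hf0, K, hK⟩ := hf
  refine ⟨by simp [hf0], |c| * K, fun x y => ?_⟩
  have h : (c • f) x - (c • f) y = c * (f x - f y) := by
    simp only [Pi.smul_apply, smul_eq_mul]; ring
  rw [h, abs_mul, mul_assoc]
  exact mul_le_mul_of_nonneg_left (hK x y) (abs_nonneg c)

lemma lipNorm_nonneg (f : M → ℝ) : 0 ≤ lipNorm f := by
  apply Real.sSup_nonneg
  rintro r ⟨x, y, -, rfl⟩
  positivity

lemma le_lipNorm_mul {f : M → ℝ} (hf : IsLip0 b f) (x y : M) :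
    |f x - f y| ≤ lipNorm f * dist x y := by
  obtain ⟨-, K, hK⟩ := hf
  by_cases hxy : x = y
  · subst hxy; simp
  · rw [← div_le_iff₀ (dist_pos.2 hxy)]
    refine le_csSup ⟨K, ?_⟩ ⟨x, y, hxy, rfl⟩
    rintro r ⟨x, y, hxy, rfl⟩
    rw [div_le_iff₀ (dist_pos.2 hxy)]
    exact hK x y

lemma lipNorm_le {f : M → ℝ} {K : ℝ} (hK0 : 0 ≤ K) (hK : ∀ x y, |f x - f y| ≤ K * dist x y) :
    lipNorm f ≤ K := by
  apply Real.sSup_le _ hK0
  rintro r ⟨x, y, hxy, rfl⟩
  rw [div_le_iff₀ (dist_pos.2 hxy)]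
  exact hK x y

lemma isLinf_add {F G : ℕ → M → ℝ} (hF : IsLinf b F) (hG : IsLinf b G) : IsLinf b (F + G) := by
  obtain ⟨hF, C, hC⟩ := hF
  obtain ⟨hG, D, hD⟩ := hG
  refine ⟨fun n => isLip0_add (hF n) (hG n), C + D, fun n => ?_⟩
  have hCD : 0 ≤ C + D := add_nonneg ((lipNorm_nonneg _).trans (hC n))
    ((lipNorm_nonneg _).trans (hD n))
  refine lipNorm_le hCD fun x y => ?_
  have h : (F + G) n x - (F + G) n y = (F n x - F n y) + (G n x - G n y) := by
    simp only [Pi.add_apply]; ring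
  rw [h, add_mul]
  refine (abs_add_le _ _).trans (add_le_add ?_ ?_)
  · exact (le_lipNorm_mul (hF n) x y).trans (mul_le_mul_of_nonneg_right (hC n) dist_nonneg)
  · exact (le_lipNorm_mul (hG n) x y).trans (mul_le_mul_of_nonneg_right (hD n) dist_nonneg)

lemma isLinf_zero : IsLinf b (0 : ℕ → M → ℝ) :=
  ⟨fun _ => isLip0_zero, 0, fun n => lipNorm_le le_rfl fun x y => by simp⟩

lemma isLinf_smul (c : ℝ) {F : ℕ → M → ℝ} (hF : IsLinf b F) : IsLinf b (c • F) := by
  obtain ⟨hF, C, hC⟩ := hF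
  refine ⟨fun n => isLip0_smul c (hF n), |c| * C, fun n => ?_⟩
  refine lipNorm_le (mul_nonneg (abs_nonneg c) ((lipNorm_nonneg _).trans (hC n))) fun x y => ?_
  have h : (c • F) n x - (c • F) n y = c * (F n x - F n y) := by
    simp only [Pi.smul_apply, smul_eq_mul]; ring
  rw [h, abs_mul, mul_assoc]
  refine mul_le_mul_of_nonneg_left ?_ (abs_nonneg c)
  exact (le_lipNorm_mul (hF n) x y).trans (mul_le_mul_of_nonneg_right (hC n) dist_nonneg)

end

/-- `Lip₀(M)`: the real Lipschitz functions on `M` vanishing at the base point `b`, as a linear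
subspace of the space of all real functions on `M`. It is normed by `lipNorm`. -/
def lipSubmodule (M : Type*) [MetricSpace M] (b : M) : Submodule ℝ (M → ℝ) where
  carrier := {f | IsLip0 b f}
  add_mem' := isLip0_add
  zero_mem' := isLip0_zero
  smul_mem' := fun c _ => isLip0_smul c

/-- The `ℓ_∞` sum of countably many copies of `Lip₀(M)`: the sequences `(F n)` of elements of
`Lip₀(M)` with bounded Lipschitz norms, as a linear subspace of the space of all sequences of real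
functions on `M`. It is normed by `⨆ n, lipNorm (F n)`. -/
def linfSum (M : Type*) [MetricSpace M] (b : M) : Submodule ℝ (ℕ → M → ℝ) where
  carrier := {F | IsLinf b F}
  add_mem' := isLinf_add
  zero_mem' := isLinf_zero
  smul_mem' := fun c _ => isLinf_smul c

/-- the norm of `Lip₀(M)` -/
noncomputable def lip0Norm {M : Type*} [MetricSpace M] {b : M} (f : lipSubmodule M b) : ℝ :=
  lipNorm f.1

/-- the norm of the `ℓ_∞` sum -/
noncomputable def linfNorm {M : Type*} [MetricSpace M] {b : M} (F : linfSum M b) : ℝ :=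
  ⨆ n, lipNorm (F.1 n)

/-- Linear isomorphism of two real vector spaces normed by `p` and `q`: there is a linear bijection
which is bounded and has a bounded inverse. -/
def LinIso {V W : Type*} [AddCommGroup V] [Module ℝ V] [AddCommGroup W] [Module ℝ W]
    (p : V → ℝ) (q : W → ℝ) : Prop :=
  ∃ (Θ : V ≃ₗ[ℝ] W) (C : ℝ), 0 < C ∧ (∀ v, q (Θ v) ≤ C * p v) ∧ ∀ v, p v ≤ C * q (Θ v)

end Pool.Agent.Lib.MP1d1573
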